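import Pool.Agent.MP_ee8c61_ag.N3.Frame
import Pool.Agent.MP_ee8c61_ag.Q3.Defs

/-!
Orders of poles in three variables over a base: the data without the hypothesis that `-la` is
not a root, and the statements of the blocks.
-/

namespace Pool.Agent.MP_ee8c61_ag.N3.Q3

open Pool.Agent.MP_ee8c61_ag.M3

set_option linter.unusedSectionVars false

variable [Base]

open H59 hiding pd
open M3RESID M3F

export Pool.Agent.MP_ee8c61_ag.Q3 (Srf0 Vol0 OK1 TY0)

noncomputable section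

/-- The functional equation. -/
structure Hyp0 (f : Po 3) (b : Polynomial ℂ) (β : Fin 3 → PX 3 (KK 3)) (Q : PX 3 (KK 3)) :
    Prop where
  ne : f ≠ 0
  bs : BSd f b β Q

/-- The standing hypotheses. -/
structure Sit0 (f : Po 3) (la : ℚ) (b : Polynomial ℂ) (β : Fin 3 → PX 3 (KK 3))
    (Q : PX 3 (KK 3)) (M : Mod 3) (C : Ch f M) (o : M.J) : Prop where
  hyp : Hyp0 f b β Q
  ok : M.OK f
  zero : M.ex la o = 0
  alive : C.Alive o

/-- A statement about the data of all alive divisors of exponent zero. -/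
def AllI0 (p : ∀ {f : Po 3} {M : Mod 3} (C : Ch f M) (_ : ℚ) (_ : Polynomial ℂ) (o : M.J),
    Ch.AV (M := M) o → C.AS o → Prop) : Prop :=
  ∀ (f : Po 3) (la : ℚ) (b : Polynomial ℂ) (β : Fin 3 → PX 3 (KK 3)) (Q : PX 3 (KK 3))
    (M : Mod 3) (C : Ch f M) (o : M.J) (X : Ch.AV (M := M) o) (Y : C.AS o),
    Sit0 f la b β Q M C o → X.OK f la β → Y.OK la → p C la b o X Y

def IAV0 : Prop := ∀ (f : Po 3) (la : ℚ) (b : Polynomial ℂ) (β : Fin 3 → PX 3 (KK 3))
  (Q : PX 3 (KK 3)) (M : Mod 3) (o : M.J), Hyp0 f b β Q → M.OK f → M.ex la o = 0 →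
  ∃ X : Ch.AV (M := M) o, X.OK f la β

def IOK1 : Prop := AllI0 fun C la b o X Y => OK1 (C.sd la b o X Y)

def ISmall0 : Prop := AllI0 fun C la b o X Y => C.Dead o → (C.sd la b o X Y).Small

def IPen0 : Prop := AllI0 fun C la b o X Y => C.Death o → (C.sd la b o X Y).Pen

/-- The output of block P. -/
structure POut : Prop where
  av : IAV0
  as : IAS
  ok : IOK1
  small : ISmall0
  pen : IPen0
  ch : SCH

/-- At a simple root there is a higher model on which the complete core curves of exponent zero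
are contracted at time zero. -/
def SIZ : Prop := ∀ (f : Po 3) (la : ℚ) (b : Polynomial ℂ) (β : Fin 3 → PX 3 (KK 3))
  (Q : PX 3 (KK 3)) (M' : Mod 3), Hyp0 f b β Q → M'.OK f → b.eval (-(la : ℂ)) = 0 →
  b.derivative.eval (-(la : ℂ)) ≠ 0 → ∃ (M : Mod 3) (_ : Dom M M'), M.OK f ∧
    ∀ (C : Ch f M) (o : M.J) (X : Ch.AV (M := M) o) (Y : C.AS o), Sit0 f la b β Q M C o →
      X.OK f la β → Y.OK la → C.t = 0 → ∀ Γ j, Cv (C.sd la b o X Y).x Γ →
      (C.sd la b o X Y).Core j Γ → (C.sd la b o X Y).al j = 0 →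
      (∀ l, ¬NC Γ ((C.sd la b o X Y).x l)) → Null (C.sd la b o X Y).x (C.sd la b o X Y).S0 Γ

end

end Pool.Agent.MP_ee8c61_ag.N3.Q3
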