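import Pool.Agent.MP_ee8c61_ag.R3L.Low
import Pool.Agent.MP_ee8c61_ag.R3BK.Bk
import Pool.Agent.MP_ee8c61_ag.R3B.Out
import Pool.Agent.MP_ee8c61_ag.R3IZ.Asm
import Pool.Agent.MP_ee8c61_ag.R3NC.TopB
import Pool.Agent.MP_ee8c61_ag.R3NC.CoreN
import Pool.Agent.MP_ee8c61_ag.R3NC.RCls
import Pool.Agent.MP_ee8c61_ag.R3NC.RDatN
import Pool.Agent.MP_ee8c61_ag.R3NC.REdgeN
import Pool.Agent.MP_ee8c61_ag.R3NC.REqN
import Pool.Agent.MP_ee8c61_ag.R3NC.RFlagN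
import Pool.Agent.MP_ee8c61_ag.R3NC.RInt
import Pool.Agent.MP_ee8c61_ag.R3NC.RKitN
import Pool.Agent.MP_ee8c61_ag.R3NC.RLog
import Pool.Agent.MP_ee8c61_ag.R3NC.ROne
import Pool.Agent.MP_ee8c61_ag.R3NC.RRed
import Pool.Agent.MP_ee8c61_ag.R3NC.RRx
import Pool.Agent.MP_ee8c61_ag.N3.RBS

/-! The orders of the poles for ideals from the statement on local thresholds. -/

namespace Pool.Agent.MP_ee8c61_ag.N3

open Pool.Agent.MP_ee8c61_ag.Q3NC (rowRed rowUq rowLog rowTop rowDn svxn)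
open Pool.Agent.MP_ee8c61_ag.Q3IZ (rowEndB)
open Pool.Agent.MP_ee8c61_ag.N3.Q3IZ

theorem snc1 [Base] : Q3FT.SNC :=
  have E := M3E.eout
  snc_of pout rowDn (snz_of ⟨E, pout, rowNice E, rowDatN E, rowSd E, rowCls rowRed rowUq rowRx,
    rowBigN rowUq rowRx, rowKitN, rowSwapN E,
    rowEdgeN rowLog rowTop rowKitN rowTwN (rowEqN rowKitN), rowFlagN E, svxn, rowEndB⟩)

theorem main2I_of (hR : Q3B.SRTI) : MainI2 :=
  mainI2_of (fun B => @Q3B.HH B) (fun A h1 h2 => exists_base A h1 h2) sbsi (Q3B.bout_of hR)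
    fun _ _ _ _ _ _ _ hH hb hM hχ => Q3BK.topM hb hM hχ (hH hM).1
      (Q3FT.t2w pout siz snc1 ⟨hM.gd.1, hb⟩ hM (hH hM).2)

end Pool.Agent.MP_ee8c61_ag.N3
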