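import Pool.Agent.MP_ee8c61_ag.R3.Fin1
import Pool.Agent.MP_ee8c61_ag.N3RT.Res

/-! The theorem with multiplicities for ideals in at most three variables. -/

namespace Pool.Agent.MP_ee8c61_ag.N3

theorem main2I : MainI2 := main2I_of MP_ee8c61_ag.N3RT.srti

theorem main3 (N : ℕ) (hN : N ≤ 3) : R3L.MainN N := R3L.upto3 main2I N hN

end Pool.Agent.MP_ee8c61_ag.N3
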